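import Pool.Agent.UHU.GMain

/-!
# MP_5ea7c6_nt : bounded heights on curves for polynomials of any degree, reduction to a power map

`f` is a polynomial of any degree `d ≥ 2` over a number field `K`, and `C` is a non-vertical curve
in affine `n`-space over `K`. For all `i ≠ j` let `H` be the equation of the plane curve
`(x_i, x_j)(C)`. Suppose that, unless no polynomial `g` commuting with `f^m` satisfies
`deg g · deg_X H = deg_Y H`, no fixed point of `f` is critical and there is a finite place `v` of
`K` which does not divide `d`, such that `f` reduces to `u X ^ d` at `v`, `u` a unit, and, with the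
weights `deg g` of `X` and `1` of `Y`, `H` reduces at `v` to a non-zero weighted form of the same
weighted degree as `H`. Then there is one height bound for all the points of `C` on all the
hypersurfaces `x_i = ζ` (`ζ` preperiodic) and `f^k(x_i) = g(f^k(x_j))` (all `k`, all `g` commuting
with a fixed iterate `f^m`) which do not contain `C`.

`UHG.IsNonverticalCurve`, `UHG.points`, `UHG.hyp` are defined in `Pool/Agent/UHG/Main.lean`,
`UHU.HomAt` in `Pool/Agent/UHU/Hom.lean` and `UHU.TamePower` in `Pool/Agent/UHU/Main.lean`.
-/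

set_option autoImplicit false

universe u

open NumberField IsDedekindDomain Polynomial

namespace Pool.Agent.Results.MP_5ea7c6_nt.AllDegrees

open Pool.Agent.UHG Pool.Agent.UHU

/-- **Bounded heights on curves, every degree.** -/
theorem result {K : Type u} [Field K] [NumberField K] (f : K[X]) (hd : 2 ≤ f.natDegree)
    (m : ℕ) (hm : 0 < m) (n : ℕ)
    (I : Ideal (MvPolynomial (Fin n) K)) (hI : IsNonverticalCurve I)
    (h : ∀ i j : Fin n, i ≠ j → ∃ H : MvPolynomial (Fin 2) K,
      (∀ G : MvPolynomial (Fin 2) K, MvPolynomial.aeval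
        ![(MvPolynomial.X i : MvPolynomial (Fin n) K), MvPolynomial.X j] G ∈ I ↔ H ∣ G) ∧
      ∀ g : K[X], g.natDegree * H.degreeOf 0 = H.degreeOf 1 →
        g.comp (f.comp^[m] X) = (f.comp^[m] X).comp g →
        IsCoprime (f - X) (derivative f) ∧ ∃ (v : HeightOneSpectrum (𝓞 K)) (κ : ℕ),
          TamePower v f ∧ HomAt v g.natDegree 1 κ H) :
    ∃ B : ℝ, ∀ k : ℕ, ∀ V ∈ hyp f m n k, ¬ points I ⊆ V → ∀ P ∈ points I ∩ V,
      ∑ i, absLogHeight₁ (P i) ≤ B :=
  main_all f hd m hm n I hI h

end Pool.Agent.Results.MP_5ea7c6_nt.AllDegrees
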