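import Pool.Agent.UHZ.Main

/-!
# MP_5ea7c6_nt : bounded heights on curves for `X ^ d + c`, `d` not a prime power

`d ≥ 2` is not a prime power, `c ≠ 0` is an element of the number field `K`, `f = X ^ d + c`, and
`C` is a non-vertical curve in affine `n`-space over `K`. For all `i ≠ j` let `H` be the equation of
the plane curve `(x_i, x_j)(C)`. Suppose that, unless no polynomial `g` commuting with `f^m`
satisfies `deg g · deg_X H = deg_Y H`, every prime number `p` dividing `d` has a place `v` of `K`
above it such that `|c|_v < 1` and, with the weights `deg g` of `X` and `1` of `Y`, some term of `H`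
has both the highest weighted degree and the coefficient with the largest absolute value at `v`.
Then there is one height bound for all the points of `C` on all the hypersurfaces `x_i = ζ`
(`ζ` preperiodic) and `f^k(x_i) = g(f^k(x_j))` (all `k`, all `g` commuting with a fixed iterate
`f^m`) which do not contain `C`. An example is `f = X ^ 6 + 6` over the rational numbers and any
line `x_i = a_i t + b_i`, `a_i ≠ 0`, `b_i` integral at `2` and at `3`.

`UHG.IsNonverticalCurve`, `UHG.points`, `UHG.hyp` are defined in `Pool/Agent/UHG/Main.lean` and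
`UHZ.TopMax` in `Pool/Agent/UHZ/Inf.lean`.
-/

set_option autoImplicit false

universe u

open NumberField IsDedekindDomain Polynomial

namespace Pool.Agent.Results.MP_5ea7c6_nt.CompositeDegree

open Pool.Agent.UHG Pool.Agent.UHZ

/-- **Bounded heights on curves for `X ^ d + c`, `d` not a prime power.** -/
theorem result {K : Type u} [Field K] [NumberField K] {d : ℕ} (hd : 2 ≤ d)
    (hdp : ¬ IsPrimePow d) {c : K} (hc : c ≠ 0)
    (m : ℕ) (hm : 0 < m) (n : ℕ)
    (I : Ideal (MvPolynomial (Fin n) K)) (hI : IsNonverticalCurve I)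
    (h : ∀ i j : Fin n, i ≠ j → ∃ H : MvPolynomial (Fin 2) K,
      (∀ G : MvPolynomial (Fin 2) K, MvPolynomial.aeval
        ![(MvPolynomial.X i : MvPolynomial (Fin n) K), MvPolynomial.X j] G ∈ I ↔ H ∣ G) ∧
      ∀ g : K[X], g.natDegree * H.degreeOf 0 = H.degreeOf 1 →
        g.comp ((X ^ d + C c).comp^[m] X) = ((X ^ d + C c).comp^[m] X).comp g →
        ∀ p : ℕ, p.Prime → p ∣ d → ∃ v : HeightOneSpectrum (𝓞 K),
          v.valuation K (p : K) < 1 ∧ v.valuation K c < 1 ∧ TopMax v g.natDegree 1 H) :
    ∃ B : ℝ, ∀ k : ℕ, ∀ V ∈ hyp (X ^ d + C c) m n k, ¬ points I ⊆ V → ∀ P ∈ points I ∩ V,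
      ∑ i, absLogHeight₁ (P i) ≤ B :=
  main_comp hd hdp hc m hm n I hI h

end Pool.Agent.Results.MP_5ea7c6_nt.CompositeDegree
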