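import Pool.Agent.UHG.HeightBound
import Pool.Agent.UHG.Transfer
import Pool.Agent.UHG.Quad
import Pool.Agent.UHG.PotTwo
import Pool.Agent.UHG.FinU

/-!
# MP_5ea7c6_nt : bounded heights on curves for quadratic polynomials

First part: `f = X ^ 2 + c` over a number field `K`, `0` is not periodic and `c` is not of the
form `2 / (η - 1)` with a unit `η` congruent to `1` modulo `8`. Second part: `f` is a quadratic
polynomial over a number field with finitely many units (the rational numbers or an imaginary
quadratic field), not conjugate to `X ^ 2` or `X ^ 2 - 1`. Then for every number field `L`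
containing `K` and every non-vertical curve `C` over `L` there is one height bound for all the
points of `C` on all the hypersurfaces `x_i = ζ` (`ζ` preperiodic) and `f^k(x_i) = g(f^k(x_j))`
(all `k`, all `g` commuting with a fixed iterate `f^m`) which do not contain `C`.
-/

set_option autoImplicit false

universe u

open NumberField Polynomial IsDedekindDomain

namespace Pool.Agent.Results.MP_5ea7c6_nt.Quadratics

open Pool.Agent.UHG

/-- The normal form of a quadratic polynomial. -/
theorem normal_form {K : Type u} [Field K] [NumberField K] (f : K[X]) (hf : f.natDegree = 2)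
    (h2 : ¬ Conj f (X ^ 2)) (h3 : ¬ Conj f (X ^ 2 - 1)) :
    ∃ a b c : K, a ≠ 0 ∧ c ≠ 0 ∧ c ≠ -1 ∧
      f.comp (C a * X + C b) = C a * (X ^ 2 + C c) + C b := by
  set α := f.coeff 2 with hα
  set β := f.coeff 1 with hβ
  set γ := f.coeff 0 with hγ
  have hα0 : α ≠ 0 := by
    have h : f.leadingCoeff ≠ 0 := by
      rw [leadingCoeff_ne_zero]
      rintro rfl
      simp at hf
    rw [leadingCoeff, hf] at h
    exact h
  have h20 : (2 : K) ≠ 0 := two_ne_zero
  have hquad : f = C α * X ^ 2 + C β * X + C γ :=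
    eq_quadratic_of_degree_le_two (natDegree_le_iff_degree_le.mp hf.le)
  set a : K := 1 / α with ha
  set b : K := -β / (2 * α) with hb
  set c : K := α * (α * b ^ 2 + β * b + γ - b) with hc
  have key : f.comp (C a * X + C b) = C a * (X ^ 2 + C c) + C b := by
    apply Polynomial.funext
    intro x
    rw [eval_comp, hquad]
    simp only [eval_add, eval_mul, eval_pow, eval_C, eval_X]
    rw [hc, ha, hb]
    field_simp
    ring
  have ha0 : a ≠ 0 := by rw [ha]; exact one_div_ne_zero hα0
  refine ⟨a, b, c, ha0, ?_, ?_, key⟩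
  · intro h
    apply h2
    refine ⟨a, b, ha0, ?_⟩
    rw [key, h, C_0, add_zero]
  · intro h
    apply h3
    refine ⟨a, b, ha0, ?_⟩
    rw [key, h, C_neg, C_1]
    ring

/-- **Bounded heights on curves, quadratic polynomials.** -/
theorem result :
    (∀ {K : Type u} [Field K] [NumberField K] (c : K),
      (∀ m : ℕ, 0 < m → (fun z : K => z ^ 2 + c)^[m] 0 ≠ 0) →
      (∀ η : (𝓞 K)ˣ, (8 : 𝓞 K) ∣ (η : 𝓞 K) - 1 → c * (((η : 𝓞 K) : K) - 1) ≠ 2) →
      HeightBound (X ^ 2 + C c)) ∧
    (∀ {K : Type u} [Field K] [NumberField K] [Finite (𝓞 K)ˣ] (f : K[X]), f.natDegree = 2 →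
      ¬ Conj f (X ^ 2) → ¬ Conj f (X ^ 2 - 1) → HeightBound f) := by
  refine ⟨?_, ?_⟩
  · intro K _ _ c hper hη
    exact heightBound_of_DB _ (by rw [natDegree_X_pow_add_C]) (DB_quad_of c
      (fun v h2 h4 => DB_pot_two c v h2 h4 hper) hper hη)
  · intro K _ _ _ f hf h2 h3
    obtain ⟨a, b, c, ha, hc0, hc1, hfc⟩ := normal_form f hf h2 h3
    obtain ⟨h4, h5⟩ := fin_units c hc0 hc1
    have hDBc := DB_quad_of.{u, u} c (fun v h6 h7 => DB_pot_two c v h6 h7 h4) h4 h5
    refine heightBound_of_DB _ (by rw [hf]) (transfer f (X ^ 2 + C c) a b ha ?_ hDBc)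
    rw [Algebra.algebraMap_self, Polynomial.map_id]
    exact hfc.symm

end Pool.Agent.Results.MP_5ea7c6_nt.Quadratics
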