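import Pool.Agent.UHG.HeightBound
import Pool.Agent.UHG.Transfer
import Pool.Agent.UHG.DBI
import Pool.Agent.UH2.GenPow
import Pool.Agent.UH2.GenDick

/-!
# MP_5ea7c6_nt : bounded heights on curves, tame reduction to a power map or a Chebyshev map

`f` is a polynomial over a number field `K`, some iterate of `f` is conjugate over a number field
`K'` containing `K` to a polynomial `g` of degree `p ^ t`, `p` prime, and at some finite place `v`
of `K'` which does not lie above `p` either `g` reduces to `u X ^ (p ^ t)`, `u` a unit, and no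
critical point of `g` is a fixed point of `g`, or `g` reduces to the Chebyshev polynomial of
degree `p ^ t`. Then for every number field `L` containing `K` and every non-vertical curve `C`
over `L` there is one height bound for all the points of `C` on all the hypersurfaces `x_i = ζ`
(`ζ` preperiodic) and `f^k(x_i) = g(f^k(x_j))` (all `k`, all `g` commuting with a fixed iterate
`f^m`) which do not contain `C`.
-/

set_option autoImplicit false

universe u

open NumberField Polynomial IsDedekindDomain

namespace Pool.Agent.Results.MP_5ea7c6_nt.TameReduction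

open Pool.Agent.UHG

/-- `g` has degree `p ^ t`, `p` prime, and at some finite place `v` not above `p` it reduces to
`u X ^ (p ^ t)`, `u` a unit, and no critical point of `g` is a fixed point of `g`. -/
def PowerTame {K : Type u} [Field K] [NumberField K] (g : K[X]) : Prop :=
  ∃ (p t : ℕ) (v : HeightOneSpectrum (𝓞 K)), p.Prime ∧ 0 < t ∧ g.natDegree = p ^ t ∧
    v.valuation K (p : K) = 1 ∧ v.valuation K g.leadingCoeff = 1 ∧
    (∀ i < p ^ t, v.valuation K (g.coeff i) < 1) ∧ IsCoprime (g - X) (derivative g)

/-- `g` has degree `p ^ t`, `p` prime, and at some finite place `v` not above `p` it reduces to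
the Chebyshev polynomial `T` of degree `p ^ t`, `T(z + 1/z) = z ^ (p ^ t) + 1 / z ^ (p ^ t)`. -/
def ChebTame {K : Type u} [Field K] [NumberField K] (g : K[X]) : Prop :=
  ∃ (p t : ℕ) (v : HeightOneSpectrum (𝓞 K)), p.Prime ∧ 0 < t ∧ g.natDegree = p ^ t ∧
    v.valuation K (p : K) = 1 ∧
    ∀ i, v.valuation K (g.coeff i - (dickson 1 (1 : K) (p ^ t)).coeff i) < 1

/-- **Bounded heights on curves, tame reduction.** -/
theorem result {K K' : Type u} [Field K] [NumberField K] [Field K'] [NumberField K']
    [Algebra K K'] (f : K[X]) (r : ℕ) (hr : 0 < r) (g : K'[X])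
    (hconj : Conj ((f.comp^[r] X).map (algebraMap K K')) g) (h : PowerTame g ∨ ChebTame g) :
    HeightBound f := by
  obtain ⟨a, b, ha, hg⟩ := hconj
  have hDBg : DB.{u, u} g ∧ 2 ≤ g.natDegree := by
    have hq2 : ∀ p t : ℕ, p.Prime → 0 < t → 2 ≤ p ^ t := by
      intro p t hp ht
      calc 2 ≤ p := hp.two_le
        _ = p ^ 1 := (pow_one p).symm
        _ ≤ p ^ t := Nat.pow_le_pow_right hp.pos ht
    rcases h with ⟨p, t, v, hp, ht, hdeg, hv, h1, h2, h3⟩ | ⟨p, t, v, hp, ht, hdeg, hv, h1⟩
    · exact ⟨UH2.collision_pow hp ht g hdeg v hv h1 h2 h3, by rw [hdeg]; exact hq2 p t hp ht⟩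
    · exact ⟨UH2.collision_dick hp ht g hdeg v hv h1, by rw [hdeg]; exact hq2 p t hp ht⟩
  have hDBF : DB.{u, u} (f.comp^[r] X) := transfer (f.comp^[r] X) g a b ha hg hDBg.1
  have hdeg' : g.natDegree = (f.comp^[r] X).natDegree := by
    have h3 := congrArg natDegree hg
    rw [natDegree_add_C, natDegree_C_mul ha, natDegree_comp, natDegree_map, natDegree_add_C,
      natDegree_C_mul ha, natDegree_X, mul_one] at h3
    exact h3
  have hf2 : 2 ≤ f.natDegree := by
    by_contra hcon
    push Not at hcon
    have h5 := hDBg.2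
    rw [natDegree_iter] at hdeg'
    have h4 : f.natDegree ^ r ≤ 1 ^ r := Nat.pow_le_pow_left (by omega) r
    rw [one_pow] at h4
    omega
  exact heightBound_of_DB f hf2 (DB.of_iter hr (by omega) hDBF)

end Pool.Agent.Results.MP_5ea7c6_nt.TameReduction
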